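import Mathlib

set_option autoImplicit false

open MeasureTheory Set Filter Metric
open scoped Topology ENNReal

namespace Pool.Agent.Results.MP_395e41_an.Integrator

/-- Admissible controls: measurable on `[0, ∞)` with values in `U = [-1, 1]` a.e. -/
def Adm : Set (ℝ → ℝ) :=
  {u | AEMeasurable u (volume.restrict (Ici 0)) ∧
    ∀ᵐ t ∂volume.restrict (Ici 0), u t ∈ Icc (-1 : ℝ) 1}

/-- The solution of `x' = u`, `x 0 = x`. -/
noncomputable def φ (t x : ℝ) (u : ℝ → ℝ) : ℝ := x + ∫ s in (0 : ℝ)..t, u s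

/-- The function of class `KL`. -/
noncomputable def ζ (r s : ℝ) : ℝ := r * Real.exp (-s)

/-- Minimal cardinality of a spanning (`c = 0`) or practically spanning (`c = 1`) set of controls,
for `Γ = [0, 1]` and `Λ = {0}`; it is `⊤` if there is no finite one. -/
noncomputable def r (c τ ε : ℝ) : ℕ∞ :=
  ⨅ S ∈ {S : Set (ℝ → ℝ) | S ⊆ Adm ∧ ∀ x ∈ Icc (0 : ℝ) 1, ∃ u ∈ S, ∀ t ∈ Icc 0 τ,
    infDist (φ t x u) {0} ≤ ζ (infDist x {0} + ε) t + c * ε}, S.encard

/-- The growth rate `limsup (1 / τ) log r (τ, ε)`. -/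
noncomputable def h (c ε : ℝ) : EReal :=
  limsup (fun τ : ℝ => ENNReal.log (r c τ ε) / (τ : EReal)) atTop

noncomputable def v (a : ℝ) (t : ℝ) : ℝ := -a * Real.exp (-t)

lemma adm {a : ℝ} (h0 : 0 ≤ a) (h1 : a ≤ 1) : v a ∈ Adm := by
  refine ⟨(by unfold v; fun_prop : Measurable (v a)).aemeasurable,
    ae_restrict_of_forall_mem measurableSet_Ici fun t ht => ?_⟩
  have := Real.exp_pos (-t)
  have : Real.exp (-t) ≤ 1 := Real.exp_le_one_iff.2 (neg_nonpos.2 ht)
  unfold v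
  constructor <;> nlinarith

lemma sol (a t x : ℝ) : φ t x (v a) = x - a + a * Real.exp (-t) := by
  simp [φ, v, intervalIntegral.integral_comp_neg fun s => Real.exp s]
  ring

lemma up {c τ ε δ : ℝ} (hε : 0 < ε) (hδ : 0 < δ) (h : δ ≤ ε * Real.exp (-τ) + c * ε) :
    (r c τ ε : ℝ≥0∞) ≤ ENNReal.ofReal (1 / δ + 1) := by
  have : r c τ ε ≤ ((fun k : ℕ => v (k * δ)) '' Iic ⌊1 / δ⌋₊).encard := by
    refine iInf₂_le _ ⟨?_, fun x hx => ⟨_, ⟨⌊x / δ⌋₊, Nat.floor_mono (by gcongr; exact hx.2), rfl⟩,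
      fun t ht => ?_⟩⟩
    · rintro _ ⟨k, hk, rfl⟩
      exact adm (by positivity)
        ((le_div_iff₀ hδ).1 ((Nat.le_floor_iff (by positivity)).1 hk))
    · have h1 := (le_div_iff₀ hδ).1 (Nat.floor_le (div_nonneg hx.1 hδ.le))
      have h2 := (div_lt_iff₀ hδ).1 (Nat.lt_floor_add_one (x / δ))
      have h3 := Real.exp_pos (-t)
      have h4 : Real.exp (-τ) ≤ Real.exp (-t) := Real.exp_le_exp.2 (neg_le_neg ht.2)
      have h5 : 0 ≤ (⌊x / δ⌋₊ : ℝ) * δ := by positivity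
      simp only [infDist_singleton, dist_zero_right, Real.norm_eq_abs, sol, ζ, abs_of_nonneg hx.1]
      rw [abs_of_nonneg (by nlinarith)]
      nlinarith
  have h2 : (Iic ⌊1 / δ⌋₊).encard = (⌊1 / δ⌋₊ + 1 : ℕ) := by
    rw [← Finset.coe_Iic, encard_coe_eq_coe_finsetCard, Nat.card_Iic]
  refine (ENat.toENNReal_le.2 (this.trans ((encard_image_le _ _).trans_eq h2))).trans ?_
  rw [ENat.toENNReal_coe, ← ENNReal.ofReal_natCast]
  refine ENNReal.ofReal_le_ofReal ?_
  push_cast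
  gcongr
  exact Nat.floor_le (by positivity)

lemma low {c τ ε ρ : ℝ} (hτ : 0 ≤ τ) (hρ : 0 < ρ) (h : (1 + ε) * Real.exp (-τ) + c * ε ≤ ρ) :
    ENNReal.ofReal (1 / (2 * ρ)) ≤ r c τ ε := by
  simp only [r, ENat.toENNReal_iInf, le_iInf_iff]
  rintro S ⟨-, hS⟩
  rcases S.finite_or_infinite with f | f
  swap
  · simp [f.encard_eq]
  lift S to Finset (ℝ → ℝ) using f
  have c1 : Icc (0 : ℝ) 1 ⊆ ⋃ u ∈ S, closedBall (-φ τ 0 u) ρ := fun x hx => by
    obtain ⟨u, hu, h1⟩ := hS x hx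
    have h2 := h1 τ ⟨hτ, le_rfl⟩
    have := Real.exp_pos (-τ)
    simp only [infDist_singleton, dist_zero_right, Real.norm_eq_abs, ζ, abs_of_nonneg hx.1,
      φ] at h2
    refine mem_biUnion hu ?_
    rw [mem_closedBall, Real.dist_eq, φ, zero_add, sub_neg_eq_add]
    nlinarith [hx.2]
  have c2 := (measure_mono (μ := volume) c1).trans (measure_biUnion_finset_le S _)
  simp only [Real.volume_Icc, Real.volume_closedBall, Finset.sum_const, nsmul_eq_mul, sub_zero,
    ENNReal.ofReal_one] at c2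
  rw [encard_coe_eq_coe_finsetCard, ENat.toENNReal_coe, ENNReal.ofReal_div_of_pos (by positivity),
    ENNReal.ofReal_one]
  exact ENNReal.div_le_of_le_mul c2

lemma lim {R : ℝ → ℝ≥0∞} {a b k : ℝ} (ha : 0 < a) (hb : 0 < b)
    (h : ∀ τ, 0 ≤ τ → ENNReal.ofReal (a * Real.exp (k * τ)) ≤ R τ ∧
      R τ ≤ ENNReal.ofReal (b * Real.exp (k * τ))) :
    limsup (fun τ : ℝ => ENNReal.log (R τ) / (τ : EReal)) atTop = k := by
  have t : ∀ a : ℝ, 0 < a → Tendsto (fun τ : ℝ =>
      ENNReal.log (ENNReal.ofReal (a * Real.exp (k * τ))) / (τ : EReal)) atTop (𝓝 k) := by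
    intro a ha
    have := (continuous_coe_real_ereal.tendsto _).comp
      ((tendsto_inv_atTop_zero.const_mul (Real.log a)).add_const k)
    simp only [mul_zero, zero_add] at this
    refine this.congr' ((eventually_gt_atTop 0).mono fun τ hτ => ?_)
    simp only [Function.comp]
    rw [ENNReal.log_ofReal_of_pos (by positivity), ← EReal.coe_div,
      Real.log_mul ha.ne' (Real.exp_ne_zero _), Real.log_exp]
    congr 1
    field_simp
  refine (tendsto_of_tendsto_of_tendsto_of_le_of_le' (t a ha) (t b hb) ?_ ?_).limsup_eq <;>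
    filter_upwards [eventually_ge_atTop 0] with τ hτ
  · exact EReal.div_le_div_right_of_nonneg (by exact_mod_cast hτ) (ENNReal.log_monotone (h τ hτ).1)
  · exact EReal.div_le_div_right_of_nonneg (by exact_mod_cast hτ) (ENNReal.log_monotone (h τ hτ).2)

theorem result : (∀ x ∈ Icc (0 : ℝ) 1, ∃ u ∈ Adm, ∀ t, 0 ≤ t →
      infDist (φ t x u) {0} ≤ ζ (infDist x {0}) t) ∧
    (∀ ε, 0 < ε → h 1 ε = 0 ∧ h 0 ε = 1) ∧
    Tendsto (h 1) (𝓝[>] 0) (𝓝 0) ∧ Tendsto (h 0) (𝓝[>] 0) (𝓝 1) := by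
  have k : ∀ ε, 0 < ε → h 1 ε = 0 ∧ h 0 ε = 1 := fun ε hε => by
    constructor
    · refine lim (k := 0) (a := 1 / (2 * (1 + 2 * ε))) (b := 1 / ε + 1) (by positivity)
        (by positivity) fun τ hτ => ?_
      have := Real.exp_pos (-τ)
      have : Real.exp (-τ) ≤ 1 := Real.exp_le_one_iff.2 (neg_nonpos.2 hτ)
      simp only [zero_mul, Real.exp_zero, mul_one]
      exact ⟨low hτ (by positivity) (by nlinarith), up hε hε (by nlinarith)⟩
    · refine lim (k := 1) (a := 1 / (2 * (1 + ε))) (b := 1 / ε + 1) (by positivity)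
        (by positivity) fun τ hτ => ⟨?_, ?_⟩
      · refine le_trans (le_of_eq ?_) (low (ρ := (1 + ε) * Real.exp (-τ)) hτ (by positivity)
          (by simp))
        rw [Real.exp_neg, one_mul]
        congr 1
        field_simp
      · refine (up (δ := ε * Real.exp (-τ)) hε (by positivity) (by simp)).trans
          (ENNReal.ofReal_le_ofReal ?_)
        have := Real.one_le_exp hτ
        rw [Real.exp_neg, one_mul, add_mul, one_mul]
        gcongr
        field_simp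
        rfl
  refine ⟨fun x hx => ⟨_, adm hx.1 hx.2, fun t _ => ?_⟩, k,
    tendsto_const_nhds.congr' (eventually_mem_nhdsWithin.mono fun ε hε => (k ε hε).1.symm),
    tendsto_const_nhds.congr' (eventually_mem_nhdsWithin.mono fun ε hε => (k ε hε).2.symm)⟩
  simp [sol, ζ, abs_of_nonneg hx.1]

end Pool.Agent.Results.MP_395e41_an.Integrator
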